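import Mathlib

/-!
Core estimates: a square of the form `g - t ^ D` where `g` and `t` have small degree.
-/

set_option autoImplicit false

open MvPolynomial

namespace Pool.Agent.R855.Grid

variable {n : ℕ}

lemma totalDegree_pderiv_le (i : Fin n) (f : MvPolynomial (Fin n) ℂ) :
    (pderiv i f).totalDegree ≤ f.totalDegree - 1 := by
  refine Finset.sup_le fun m hm => ?_
  rw [mem_support_iff, coeff_pderiv] at hm
  have h1 : coeff (m + Finsupp.single i 1) f ≠ 0 := fun h0 => hm (by rw [h0]; simp)
  have h2 := le_totalDegree (mem_support_iff.mpr h1)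
  have h3 : ((m + Finsupp.single i 1).sum fun _ e => e) = (m.sum fun _ e => e) + 1 := by
    rw [Finsupp.sum_add_index' (fun _ => rfl) (fun _ _ _ => rfl)]
    simp
  omega

lemma eq_C_of_pderiv {p : MvPolynomial (Fin n) ℂ} (h : ∀ i, pderiv i p = 0) :
    ∃ c : ℂ, p = C c := by
  refine ⟨coeff 0 p, ?_⟩
  ext m
  rw [coeff_C]
  split_ifs with hm
  · rw [hm]
  · have hm' : ∃ i, m i ≠ 0 := by
      by_contra hcon
      push Not at hcon
      exact hm (by ext i; simp [hcon i])
    obtain ⟨i, hi⟩ := hm'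
    have h1 := congrArg (coeff (m - Finsupp.single i 1)) (h i)
    rw [coeff_pderiv, coeff_zero] at h1
    have h2 : m - Finsupp.single i 1 + Finsupp.single i 1 = m := by
      apply tsub_add_cancel_of_le
      rw [Finsupp.single_le_iff]
      omega
    rw [h2] at h1
    exact (mul_eq_zero.1 h1).resolve_right (Nat.cast_add_one_ne_zero _)

/-- two polynomials with proportional derivatives are proportional -/
lemma eq_C_mul_of_pderiv {U V : MvPolynomial (Fin n) ℂ} (hV : V ≠ 0)
    (h : ∀ i, pderiv i U * V = U * pderiv i V) : ∃ c : ℂ, U = C c * V := by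
  obtain ⟨V1, U1, G, hrel, hGV, hGU⟩ := UniqueFactorizationMonoid.exists_reduced_factors V hV U
  have hG : G ≠ 0 := by
    rintro rfl
    rw [zero_mul] at hGV
    exact hV hGV.symm
  have hV1 : V1 ≠ 0 := by
    rintro rfl
    rw [mul_zero] at hGV
    exact hV hGV.symm
  have h1 : ∀ i, pderiv i U1 * V1 = U1 * pderiv i V1 := by
    intro i
    have h2 := h i
    rw [← hGV, ← hGU, pderiv_mul, pderiv_mul] at h2
    apply mul_left_cancel₀ (mul_ne_zero hG hG)
    linear_combination h2
  have h3 : ∀ i, pderiv i V1 = 0 := by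
    intro i
    by_contra hne
    have h4 : V1 ∣ pderiv i V1 := by
      apply hrel.dvd_of_dvd_mul_left
      rw [← h1 i]
      exact dvd_mul_left _ _
    obtain ⟨W, hW⟩ := h4
    have hW0 : W ≠ 0 := by
      rintro rfl
      rw [mul_zero] at hW
      exact hne hW
    have h5 : (pderiv i V1).totalDegree = V1.totalDegree + W.totalDegree := by
      rw [hW, totalDegree_mul_of_isDomain hV1 hW0]
    have h6 := totalDegree_pderiv_le i V1
    have h7 : V1.totalDegree = 0 := by omega
    apply hne
    rw [totalDegree_eq_zero_iff_eq_C] at h7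
    rw [h7, pderiv_C]
  obtain ⟨v, hv⟩ := eq_C_of_pderiv h3
  have h8 : ∀ i, pderiv i U1 = 0 := by
    intro i
    have h9 := h1 i
    rw [h3 i, mul_zero] at h9
    exact (mul_eq_zero.1 h9).resolve_right hV1
  obtain ⟨u, hu⟩ := eq_C_of_pderiv h8
  have hv0 : v ≠ 0 := by
    rintro rfl
    rw [C_0] at hv
    exact hV1 hv
  refine ⟨u / v, ?_⟩
  rw [← hGV, ← hGU, hu, hv, mul_left_comm, ← C_mul, div_mul_cancel₀ _ hv0]

lemma totalDegree_pow' (t : MvPolynomial (Fin n) ℂ) (ht : t ≠ 0) (D : ℕ) :
    (t ^ D).totalDegree = D * t.totalDegree := by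
  induction D with
  | zero => simp
  | succ D ih =>
    rw [pow_succ, totalDegree_mul_of_isDomain (pow_ne_zero _ ht) ht, ih]
    ring

/-- The affine core estimate. -/
theorem core_affine (d D : ℕ) (t g r : MvPolynomial (Fin n) ℂ) (hD : 4 * d < D)
    (hg : g = r ^ 2 + t ^ D) (ht1 : 1 ≤ t.totalDegree) (ht : t.totalDegree ≤ d)
    (hgd : g.totalDegree ≤ d) (hind : ∀ c : ℂ, r ^ 2 ≠ C c * t ^ D) : False := by
  have ht0 : t ≠ 0 := by
    rintro rfl
    simp at ht1
  have hr0 : r ≠ 0 := by
    rintro rfl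
    exact hind 0 (by simp)
  -- degree of `r`
  have hdeg : (r ^ 2).totalDegree = D * t.totalDegree := by
    have h1 : r ^ 2 = g + (-(t ^ D)) := by rw [hg]; ring
    have h2 : (t ^ D).totalDegree = D * t.totalDegree := totalDegree_pow' t ht0 D
    rw [h1, totalDegree_add_eq_right_of_totalDegree_lt, totalDegree_neg, h2]
    rw [totalDegree_neg, h2]
    calc g.totalDegree ≤ d := hgd
      _ < D := by omega
      _ ≤ D * t.totalDegree := Nat.le_mul_of_pos_right _ ht1
  have hdeg2 : 2 * r.totalDegree = D * t.totalDegree := by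
    rw [← hdeg, pow_two, totalDegree_mul_of_isDomain hr0 hr0]
    ring
  obtain ⟨D', rfl⟩ : ∃ D', D = D' + 1 := ⟨D - 1, by omega⟩
  have key : ∀ i, r * (((D' + 1 : ℕ) : MvPolynomial (Fin n) ℂ) * pderiv i t * r - 2 * pderiv i r * t) =
      ((D' + 1 : ℕ) : MvPolynomial (Fin n) ℂ) * pderiv i t * g - pderiv i g * t := by
    intro i
    have h1 : pderiv i g = 2 * r * pderiv i r +
        ((D' + 1 : ℕ) : MvPolynomial (Fin n) ℂ) * t ^ D' * pderiv i t := by
      rw [hg, map_add, pderiv_pow, pderiv_pow]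
      simp
    rw [h1, hg]
    ring
  by_cases hE : ∀ i, ((D' + 1 : ℕ) : MvPolynomial (Fin n) ℂ) * pderiv i t * g - pderiv i g * t = 0
  · have h2 : ∀ i, pderiv i (r ^ 2) * t ^ (D' + 1) = r ^ 2 * pderiv i (t ^ (D' + 1)) := by
      intro i
      have h3 := key i
      rw [hE i] at h3
      have h4 := (mul_eq_zero.1 h3).resolve_left hr0
      rw [pderiv_pow, pderiv_pow]
      simp only [Nat.cast_ofNat, Nat.add_sub_cancel, Nat.reduceSub, pow_one]
      linear_combination (-(r * t ^ D')) * h4
    obtain ⟨c, hc⟩ := eq_C_mul_of_pderiv (pow_ne_zero _ ht0) h2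
    exact hind c hc
  · push Not at hE
    obtain ⟨i, hi⟩ := hE
    have h1 : r ∣ ((D' + 1 : ℕ) : MvPolynomial (Fin n) ℂ) * pderiv i t * g - pderiv i g * t :=
      ⟨_, (key i).symm⟩
    obtain ⟨W, hW⟩ := h1
    have hW0 : W ≠ 0 := by
      rintro rfl
      rw [mul_zero] at hW
      exact hi hW
    have h5 : (((D' + 1 : ℕ) : MvPolynomial (Fin n) ℂ) * pderiv i t * g - pderiv i g * t).totalDegree =
        r.totalDegree + W.totalDegree := by
      rw [hW, totalDegree_mul_of_isDomain hr0 hW0]
    have h6 : (((D' + 1 : ℕ) : MvPolynomial (Fin n) ℂ) * pderiv i t * g - pderiv i g * t).totalDegree ≤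
        2 * d := by
      refine (totalDegree_sub _ _).trans (max_le ?_ ?_)
      · refine (totalDegree_mul _ _).trans ?_
        have h7 : (((D' + 1 : ℕ) : MvPolynomial (Fin n) ℂ) * pderiv i t).totalDegree ≤ d := by
          refine (totalDegree_mul _ _).trans ?_
          have h8 := totalDegree_pderiv_le i t
          have h9 : (((D' + 1 : ℕ) : MvPolynomial (Fin n) ℂ)).totalDegree = 0 := by
            rw [← map_natCast (C : ℂ →+* MvPolynomial (Fin n) ℂ), totalDegree_C]
          omega
        omega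
      · refine (totalDegree_mul _ _).trans ?_
        have h8 := totalDegree_pderiv_le i g
        omega
    have h7 : D' + 1 ≤ (D' + 1) * t.totalDegree := Nat.le_mul_of_pos_right _ ht1
    omega

end Pool.Agent.R855.Grid
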