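import Pool.Agent.R855.Grid.Core
import Pool.Agent.Helper993.CS.Z2

/-!
The projective core estimate.
-/

set_option autoImplicit false

open MvPolynomial

namespace Pool.Agent.R855.Grid

variable {M : ℕ}

lemma one_le_totalDegree {q : MvPolynomial (Fin (M+1)) ℂ} (hq : q ≠ 0) (hu : ¬ IsUnit q) :
    1 ≤ q.totalDegree := by
  by_contra h
  have h1 : q.totalDegree = 0 := by omega
  rw [totalDegree_eq_zero_iff_eq_C] at h1
  apply hu
  rw [h1]
  apply IsUnit.map
  rw [isUnit_iff_ne_zero]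
  intro h2
  rw [h2, C_0] at h1
  exact hq h1

lemma pow_not_dvd {q π : MvPolynomial (Fin (M+1)) ℂ} (hq : q ≠ 0) (hπ : Irreducible π) {e : ℕ}
    (he : q.totalDegree < e) : ¬ π ^ e ∣ q := by
  intro h
  have h1 := totalDegree_le_of_dvd_of_isDomain h hq
  rw [totalDegree_pow' π hπ.ne_zero] at h1
  have h2 := one_le_totalDegree hπ.ne_zero hπ.not_isUnit
  have h3 : e ≤ e * π.totalDegree := Nat.le_mul_of_pos_right _ h2
  omega

lemma relPrime_of_irreducible {R : Type*} [CommMonoidWithZero R] {π a : R}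
    (hπ : Irreducible π) (h : ¬ π ∣ a) : IsRelPrime π a := by
  intro d hd hda
  rcases hπ.dvd_iff.1 hd with h1 | h1
  · exact h1
  · exact absurd (h1.dvd.trans hda) h

theorem core_proj (δ E : ℕ) (ρ0 ρ1 ρ2 b p2 p1 H : MvPolynomial (Fin (M+1)) ℂ)
    (hD : 7 * δ < E + 2)
    (hb : b.IsHomogeneous δ) (hp2 : p2.IsHomogeneous δ) (hp1 : p1.IsHomogeneous δ)
    (hρ0 : ρ0 ≠ 0) (hρ1 : ρ1 ≠ 0)
    (e1 : ρ0 ^ (E + 2) = H * b) (e2 : ρ2 * ρ0 ^ (E + 1) = H * p2)
    (e3 : ρ1 ^ 2 * ρ0 ^ E + ρ2 ^ (E + 2) = H * p1)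
    (hc1 : ∀ c : ℂ, ρ2 ≠ C c * ρ0) (hc2 : ∀ c : ℂ, ρ1 ^ 2 * ρ0 ^ (E + 2) ≠ C c * (ρ2 ^ (E + 2) * ρ0 ^ 2)) :
    False := by
  have hHb : H * b ≠ 0 := by
    rw [← e1]
    exact pow_ne_zero _ hρ0
  have hH : H ≠ 0 := left_ne_zero_of_mul hHb
  have hb0 : b ≠ 0 := right_ne_zero_of_mul hHb
  have a1 : b * ρ2 = p2 * ρ0 := by
    apply mul_left_cancel₀ hH
    calc H * (b * ρ2) = (H * b) * ρ2 := by ring
      _ = (ρ2 * ρ0 ^ (E + 1)) * ρ0 := by rw [← e1]; ring
      _ = H * (p2 * ρ0) := by rw [e2]; ring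
  have a2 : b * (ρ1 ^ 2 * ρ0 ^ E + ρ2 ^ (E + 2)) = p1 * ρ0 ^ (E + 2) := by
    apply mul_left_cancel₀ hH
    calc H * (b * (ρ1 ^ 2 * ρ0 ^ E + ρ2 ^ (E + 2))) =
        (H * b) * (ρ1 ^ 2 * ρ0 ^ E + ρ2 ^ (E + 2)) := by ring
      _ = ρ0 ^ (E + 2) * (H * p1) := by rw [← e1, e3]
      _ = _ := by ring
  obtain ⟨q, p, q0, hqp, hq0q, hq0p⟩ := UniqueFactorizationMonoid.exists_reduced_factors b hb0 p2
  have hq0 : q0 ≠ 0 := by
    rintro rfl
    rw [zero_mul] at hq0q
    exact hb0 hq0q.symm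
  have hq : q ≠ 0 := by
    rintro rfl
    rw [mul_zero] at hq0q
    exact hb0 hq0q.symm
  have a3 : q * ρ2 = p * ρ0 := by
    apply mul_left_cancel₀ hq0
    rw [← mul_assoc, hq0q, a1, ← hq0p]
    ring
  have hp : p ≠ 0 := by
    rintro rfl
    rw [zero_mul] at a3
    have h1 := (mul_eq_zero.1 a3).resolve_left hq
    exact hc1 0 (by rw [h1]; simp)
  obtain ⟨a0, κ, haκ, hq0h, hqh⟩ := Pool.Agent.Helper993.CS.factor_hom (hq0q ▸ hb) (hq0q ▸ hb0)
  have hp20 : p2 ≠ 0 := by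
    rw [← hq0p]
    exact mul_ne_zero hq0 hp
  obtain ⟨a0', κ', haκ', hq0h', hph⟩ := Pool.Agent.Helper993.CS.factor_hom (hq0p ▸ hp2) (hq0p ▸ hp20)
  have ha0 : a0' = a0 := hq0h'.inj_right hq0h hq0
  subst ha0
  obtain rfl : κ' = κ := by omega
  have hκ : 1 ≤ κ' := by
    by_contra hcon
    obtain rfl : κ' = 0 := by omega
    rw [← totalDegree_zero_iff_isHomogeneous, totalDegree_eq_zero_iff_eq_C] at hqh hph
    set cq := coeff 0 q
    set cp := coeff 0 p
    have hcq : cq ≠ 0 := by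
      intro h0
      rw [h0, C_0] at hqh
      exact hq hqh
    apply hc1 (cp / cq)
    apply mul_left_cancel₀ hq
    rw [a3, hqh, hph, ← mul_assoc, ← C_mul, mul_div_cancel₀ _ hcq]
  obtain ⟨β, α, k, hβα, hβ, hα⟩ := UniqueFactorizationMonoid.exists_reduced_factors ρ0 hρ0 ρ1
  have hk : k ≠ 0 := by
    rintro rfl
    rw [zero_mul] at hβ
    exact hρ0 hβ.symm
  have hβ0 : β ≠ 0 := by
    rintro rfl
    rw [mul_zero] at hβ
    exact hρ0 hβ.symm
  have hα0 : α ≠ 0 := by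
    rintro rfl
    rw [mul_zero] at hα
    exact hρ1 hα.symm
  set N := p1 * q ^ (E + 1) - q0 * p ^ (E + 2) with hN
  have a4' : q ^ (E + 2) * q0 * ρ1 ^ 2 = ρ0 ^ 2 * N := by
    have h1 : q * ρ0 ^ E * (q ^ (E + 2) * q0 * ρ1 ^ 2) = q * ρ0 ^ E * (ρ0 ^ 2 * N) := by
      have h2 : (q * ρ2) ^ (E + 2) = (p * ρ0) ^ (E + 2) := by rw [a3]
      rw [mul_pow, mul_pow] at h2
      rw [← hq0q] at a2
      calc q * ρ0 ^ E * (q ^ (E + 2) * q0 * ρ1 ^ 2)
          = q ^ (E + 2) * (q0 * q * (ρ1 ^ 2 * ρ0 ^ E + ρ2 ^ (E + 2))) -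
              q0 * q * (q ^ (E + 2) * ρ2 ^ (E + 2)) := by ring
        _ = q ^ (E + 2) * (p1 * ρ0 ^ (E + 2)) - q0 * q * (p ^ (E + 2) * ρ0 ^ (E + 2)) := by
            rw [a2, h2]
        _ = q * ρ0 ^ E * (ρ0 ^ 2 * N) := by rw [hN]; ring
    exact mul_left_cancel₀ (mul_ne_zero hq (pow_ne_zero _ hρ0)) h1
  have a4 : q ^ (E + 2) * q0 * α ^ 2 = β ^ 2 * N := by
    apply mul_left_cancel₀ (pow_ne_zero 2 hk)
    calc k ^ 2 * (q ^ (E + 2) * q0 * α ^ 2) = q ^ (E + 2) * q0 * (k * α) ^ 2 := by ring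
      _ = (k * β) ^ 2 * N := by rw [hα, hβ, a4']
      _ = _ := by ring
  have hN0 : N ≠ 0 := by
    intro h0
    rw [h0, mul_zero] at a4
    exact mul_ne_zero (mul_ne_zero (pow_ne_zero _ hq) hq0) (pow_ne_zero _ hα0) a4
  have hrelαβ : IsRelPrime (α ^ 2) (β ^ 2) := hβα.symm.pow
  obtain ⟨N', hN'⟩ : α ^ 2 ∣ N := by
    apply hrelαβ.dvd_of_dvd_mul_left
    rw [← a4]
    exact dvd_mul_left _ _
  have a6 : q ^ (E + 2) * q0 = β ^ 2 * N' := by
    apply mul_right_cancel₀ (pow_ne_zero 2 hα0)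
    rw [a4, hN']
    ring
  have hN'0 : N' ≠ 0 := by
    rintro rfl
    rw [mul_zero] at hN'
    exact hN0 hN'
  have a7 : ∀ g, g ∣ N → g ∣ q ^ (E + 1) → g ∣ q0 := by
    intro g hg1 hg2
    have h1 : g ∣ q0 * p ^ (E + 2) := by
      have h2 : q0 * p ^ (E + 2) = p1 * q ^ (E + 1) - N := by rw [hN]; ring
      rw [h2]
      exact dvd_sub (hg2.mul_left _) hg1
    have h3 : IsRelPrime g (p ^ (E + 2)) := by
      have h4 : IsRelPrime (q ^ (E + 1)) (p ^ (E + 2)) := hqp.pow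
      intro d hd1 hd2
      exact h4 (hd1.trans hg2) hd2
    exact h3.dvd_of_dvd_mul_right h1
  have hdq0 : q0.totalDegree < E + 1 := by
    rw [hq0h.totalDegree hq0]
    omega
  have a8 : IsRelPrime α q := by
    apply WfDvdMonoid.isRelPrime_of_no_irreducible_factors (fun h => hα0 h.1)
    intro π hπ hπα hπq
    have h1 : ¬ π ∣ β := fun h => hπ.not_isUnit (hβα h hπα)
    have h2 : IsRelPrime (π ^ (E + 2)) (β ^ 2) := (relPrime_of_irreducible hπ h1).pow
    have h3 : π ^ (E + 2) ∣ N' := by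
      apply h2.dvd_of_dvd_mul_left
      rw [← a6]
      exact (pow_dvd_pow_of_dvd hπq _).mul_right _
    have h4 : π ^ (E + 1) ∣ q0 := by
      apply a7
      · rw [hN']
        exact ((pow_dvd_pow π (by omega)).trans h3).mul_left _
      · exact pow_dvd_pow_of_dvd hπq _
    exact pow_not_dvd hq0 hπ hdq0 h4
  -- degree of `N'`
  obtain ⟨n2, n1, g, h21, hg2, hg1⟩ :=
    UniqueFactorizationMonoid.exists_reduced_factors (q ^ (E + 1)) (pow_ne_zero _ hq) N'
  have hg0 : g ≠ 0 := by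
    rintro rfl
    rw [zero_mul] at hg1
    exact hN'0 hg1.symm
  have hn1 : n1 ≠ 0 := by
    rintro rfl
    rw [mul_zero] at hg1
    exact hN'0 hg1.symm
  have hgq0 : g ∣ q0 := by
    apply a7
    · rw [hN', ← hg1]
      exact (dvd_mul_right g n1).mul_left _
    · rw [← hg2]
      exact dvd_mul_right _ _
  have hn1q : IsRelPrime n1 q := by
    apply WfDvdMonoid.isRelPrime_of_no_irreducible_factors (fun h => hn1 h.1)
    intro π hπ hπn hπq
    have h1 : ¬ π ∣ n2 := fun h => hπ.not_isUnit (h21 h hπn)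
    have h2 : IsRelPrime (π ^ (E + 1)) n2 := (relPrime_of_irreducible hπ h1).pow_left
    have h3 : π ^ (E + 1) ∣ g := by
      apply h2.dvd_of_dvd_mul_right
      rw [hg2]
      exact pow_dvd_pow_of_dvd hπq _
    exact pow_not_dvd hq0 hπ hdq0 (h3.trans hgq0)
  have hn1q0 : n1 ∣ q0 := by
    have h1 : IsRelPrime n1 (q ^ (E + 2)) := hn1q.pow_right
    apply h1.dvd_of_dvd_mul_left
    rw [a6, ← hg1]
    exact ((dvd_mul_left n1 g).mul_left _)
  have hdN' : N'.totalDegree ≤ 2 * q0.totalDegree := by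
    rw [← hg1, totalDegree_mul_of_isDomain hg0 hn1]
    have h1 := totalDegree_le_of_dvd_of_isDomain hgq0 hq0
    have h2 := totalDegree_le_of_dvd_of_isDomain hn1q0 hq0
    omega
  have hNhom : N.IsHomogeneous (a0' + κ' * (E + 2)) := by
    have h1 : (p1 * q ^ (E + 1)).IsHomogeneous (a0' + κ' * (E + 2)) := by
      have := hp1.mul (hqh.pow (E + 1))
      have h2 : δ + κ' * (E + 1) = a0' + κ' * (E + 2) := by
        rw [← haκ]
        ring
      rwa [h2] at this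
    exact h1.sub (hq0h.mul (hph.pow (E + 2)))
  have hdN : N.totalDegree = a0' + κ' * (E + 2) := hNhom.totalDegree hN0
  have hdN2 : N.totalDegree = 2 * α.totalDegree + N'.totalDegree := by
    rw [hN', totalDegree_mul_of_isDomain (pow_ne_zero _ hα0) hN'0, totalDegree_pow' α hα0]
  have hlow : E + 2 ≤ 2 * α.totalDegree + δ := by
    have h1 : E + 2 ≤ κ' * (E + 2) := Nat.le_mul_of_pos_left _ hκ
    rw [hq0h.totalDegree hq0] at hdN'
    omega
  -- the derivative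
  have key : ∀ i, p * q0 * pderiv i N -
      (((E + 2 : ℕ) : MvPolynomial (Fin (M+1)) ℂ) * q0 * pderiv i p + pderiv i q0 * p) * N =
      q ^ E * (p * q0 * pderiv i p1 * q + ((E + 1 : ℕ) : MvPolynomial (Fin (M+1)) ℂ) * p * q0 * p1 * pderiv i q -
        (((E + 2 : ℕ) : MvPolynomial (Fin (M+1)) ℂ) * q0 * pderiv i p + pderiv i q0 * p) * p1 * q) := by
    intro i
    have h1 : pderiv i N = pderiv i p1 * q ^ (E + 1) +
        p1 * (((E + 1 : ℕ) : MvPolynomial (Fin (M+1)) ℂ) * q ^ E * pderiv i q) -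
        (pderiv i q0 * p ^ (E + 2) +
          q0 * (((E + 2 : ℕ) : MvPolynomial (Fin (M+1)) ℂ) * p ^ (E + 1) * pderiv i p)) := by
      rw [hN, map_sub, pderiv_mul, pderiv_mul, pderiv_pow, pderiv_pow]
      simp only [Nat.add_sub_cancel, show E + 2 - 1 = E + 1 by omega]
    rw [h1, hN]
    ring
  by_cases hw : ∀ i, p * q0 * pderiv i p1 * q + ((E + 1 : ℕ) : MvPolynomial (Fin (M+1)) ℂ) * p * q0 * p1 * pderiv i q -
        (((E + 2 : ℕ) : MvPolynomial (Fin (M+1)) ℂ) * q0 * pderiv i p + pderiv i q0 * p) * p1 * q = 0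
  · have h1 : ∀ i, pderiv i N * (q0 * p ^ (E + 2)) = N * pderiv i (q0 * p ^ (E + 2)) := by
      intro i
      have h2 := key i
      rw [hw i, mul_zero] at h2
      rw [pderiv_mul, pderiv_pow]
      simp only [show E + 2 - 1 = E + 1 by omega]
      linear_combination (p ^ (E + 1)) * h2
    obtain ⟨c, hc⟩ := eq_C_mul_of_pderiv (mul_ne_zero hq0 (pow_ne_zero _ hp)) h1
    apply hc2 c
    apply mul_left_cancel₀ (mul_ne_zero (pow_ne_zero (E + 2) hq) hq0)
    have h3 : (q * ρ2) ^ (E + 2) = (p * ρ0) ^ (E + 2) := by rw [a3]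
    rw [mul_pow, mul_pow] at h3
    calc q ^ (E + 2) * q0 * (ρ1 ^ 2 * ρ0 ^ (E + 2)) = (q ^ (E + 2) * q0 * ρ1 ^ 2) * ρ0 ^ (E + 2) := by
          ring
      _ = C c * q0 * ρ0 ^ 2 * (p ^ (E + 2) * ρ0 ^ (E + 2)) := by rw [a4', hc]; ring
      _ = C c * q0 * ρ0 ^ 2 * (q ^ (E + 2) * ρ2 ^ (E + 2)) := by rw [h3]
      _ = _ := by ring
  · push Not at hw
    obtain ⟨i, hi⟩ := hw
    set w := p * q0 * pderiv i p1 * q + ((E + 1 : ℕ) : MvPolynomial (Fin (M+1)) ℂ) * p * q0 * p1 * pderiv i q -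
        (((E + 2 : ℕ) : MvPolynomial (Fin (M+1)) ℂ) * q0 * pderiv i p + pderiv i q0 * p) * p1 * q with hwdef
    have h1 : α ∣ w := by
      have h2 : IsRelPrime α (q ^ E) := a8.pow_right
      apply h2.dvd_of_dvd_mul_left
      rw [← key i]
      have h3 : α ∣ N := by
        rw [hN', pow_two, mul_assoc]
        exact dvd_mul_right _ _
      have h4 : α ∣ pderiv i N := by
        rw [hN', pderiv_mul, pderiv_pow]
        refine dvd_add ?_ ?_
        · refine Dvd.dvd.mul_right ?_ _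
          refine Dvd.dvd.mul_right ?_ _
          simp
        · refine Dvd.dvd.mul_right ?_ _
          rw [pow_two]
          exact dvd_mul_right _ _
      exact dvd_sub (h4.mul_left _) (h3.mul_left _)
    have h5 := totalDegree_le_of_dvd_of_isDomain h1 hi
    have dnat : ∀ m : ℕ, ((m : MvPolynomial (Fin (M+1)) ℂ)).totalDegree = 0 := by
      intro m
      rw [← map_natCast (C : ℂ →+* MvPolynomial (Fin (M+1)) ℂ), totalDegree_C]
    have dp := hph.totalDegree hp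
    have dq := hqh.totalDegree hq
    have dq0 := hq0h.totalDegree hq0
    have dp1 : p1.totalDegree ≤ δ := hp1.totalDegree_le
    have d1 := totalDegree_pderiv_le i p1
    have d2 := totalDegree_pderiv_le i q
    have d3 := totalDegree_pderiv_le i p
    have d4 := totalDegree_pderiv_le i q0
    have h6 : w.totalDegree ≤ 3 * δ := by
      rw [hwdef]
      refine (totalDegree_sub _ _).trans (max_le ((totalDegree_add _ _).trans (max_le ?_ ?_)) ?_)
      · have t1 := totalDegree_mul (p * q0 * pderiv i p1) q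
        have t2 := totalDegree_mul (p * q0) (pderiv i p1)
        have t3 := totalDegree_mul p q0
        omega
      · have t1 := totalDegree_mul (((E + 1 : ℕ) : MvPolynomial (Fin (M+1)) ℂ) * p * q0 * p1) (pderiv i q)
        have t2 := totalDegree_mul (((E + 1 : ℕ) : MvPolynomial (Fin (M+1)) ℂ) * p * q0) p1
        have t3 := totalDegree_mul (((E + 1 : ℕ) : MvPolynomial (Fin (M+1)) ℂ) * p) q0
        have t4 := totalDegree_mul (((E + 1 : ℕ) : MvPolynomial (Fin (M+1)) ℂ)) p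
        have t5 := dnat (E + 1)
        omega
      · have t1 := totalDegree_mul ((((E + 2 : ℕ) : MvPolynomial (Fin (M+1)) ℂ) * q0 * pderiv i p + pderiv i q0 * p) * p1) q
        have t2 := totalDegree_mul (((E + 2 : ℕ) : MvPolynomial (Fin (M+1)) ℂ) * q0 * pderiv i p + pderiv i q0 * p) p1
        have t3 := totalDegree_add (((E + 2 : ℕ) : MvPolynomial (Fin (M+1)) ℂ) * q0 * pderiv i p) (pderiv i q0 * p)
        have t4 := totalDegree_mul (((E + 2 : ℕ) : MvPolynomial (Fin (M+1)) ℂ) * q0) (pderiv i p)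
        have t5 := totalDegree_mul (((E + 2 : ℕ) : MvPolynomial (Fin (M+1)) ℂ)) q0
        have t6 := totalDegree_mul (pderiv i q0) p
        have t7 := dnat (E + 2)
        omega
    omega

end Pool.Agent.R855.Grid
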