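import Mathlib

/-!
Nullstellensatz for a prime polynomial in two sets of variables.
-/

set_option autoImplicit false

open MvPolynomial

namespace Pool.Agent.R855.Grid

variable {σ τ : Type} [Finite σ] [Finite τ]

lemma eval_sumAlg (p : MvPolynomial (σ ⊕ τ) ℂ) (u : τ → ℂ) (v : σ → ℂ) :
    eval v (map (eval u) (sumAlgEquiv ℂ σ τ p)) = eval (Sum.elim v u) p := by
  have h : (((eval v).comp (map (eval u))).comp ((sumAlgEquiv ℂ σ τ : MvPolynomial (σ ⊕ τ) ℂ →+*
      MvPolynomial σ (MvPolynomial τ ℂ)))) = (eval (Sum.elim v u) : MvPolynomial (σ ⊕ τ) ℂ →+* ℂ) := by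
    apply ringHom_ext
    · intro r
      simp
    · intro i
      rcases i with i | i
      · simp
      · simp
  exact DFunLike.congr_fun h p

theorem dvd_of_zero (Q F : MvPolynomial σ (MvPolynomial τ ℂ)) (hQ : Prime Q)
    (h : ∀ (u : τ → ℂ) (v : σ → ℂ), eval v (map (eval u) Q) = 0 → eval v (map (eval u) F) = 0) :
    Q ∣ F := by
  set e := sumAlgEquiv ℂ σ τ with he
  set Q' := e.symm Q with hQ'
  set F' := e.symm F with hF'
  have hQe : e Q' = Q := e.apply_symm_apply Q
  have hFe : e F' = F := e.apply_symm_apply F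
  have hprime : Prime Q' := (MulEquiv.prime_iff e.symm.toMulEquiv).2 hQ
  have hz : ∀ w : σ ⊕ τ → ℂ, eval w Q' = 0 → eval w F' = 0 := by
    intro w hw
    have hw' : w = Sum.elim (w ∘ Sum.inl) (w ∘ Sum.inr) := (Sum.elim_comp_inl_inr w).symm
    rw [hw', ← eval_sumAlg, ← he, hFe]
    apply h
    rw [← hQe, he, eval_sumAlg, ← hw']
    exact hw
  have hmem : F' ∈ (Ideal.span {Q'}).radical := by
    rw [← vanishingIdeal_zeroLocus_eq_radical (K := ℂ)]
    rw [mem_vanishingIdeal_iff]
    intro w hw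
    rw [mem_zeroLocus_iff] at hw
    have := hw Q' (Ideal.mem_span_singleton_self Q')
    rw [aeval_eq_eval] at this ⊢
    exact hz w this
  have hpr : (Ideal.span {Q'}).IsPrime := (Ideal.span_singleton_prime hprime.ne_zero).2 hprime
  rw [hpr.radical, Ideal.mem_span_singleton] at hmem
  obtain ⟨R, hR⟩ := hmem
  exact ⟨e R, by rw [← hFe, hR, map_mul, hQe]⟩

end Pool.Agent.R855.Grid
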