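import Pool.Agent.R855.Grid.Core
import Pool.Agent.R855.Grid.Null

/-!
Linear forms in `x` with coefficients in `ℂ[y]`.
-/

set_option autoImplicit false

open MvPolynomial

namespace Pool.Agent.R855.Grid

/-- polynomials in `x_0, …, x_n` with coefficients in `ℂ[y_0, …, y_n]` -/
abbrev BPoly (n : ℕ) : Type := MvPolynomial (Fin (n+1)) (MvPolynomial (Fin (n+1)) ℂ)

/-- the value `F(u, v)` -/
noncomputable def bval {n : ℕ} (F : BPoly n) (u v : Fin (n+1) → ℂ) : ℂ := eval u (map (eval v) F)

lemma bval_mul {n : ℕ} (F G : BPoly n) (u v : Fin (n+1) → ℂ) :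
    bval (F * G) u v = bval F u v * bval G u v := by simp [bval]

lemma bval_ext {n : ℕ} (F : BPoly n) (h : ∀ u v, bval F u v = 0) : F = 0 := by
  ext m : 1
  rw [coeff_zero]
  apply MvPolynomial.funext
  intro v
  have h1 : MvPolynomial.map (eval v) F = 0 := by
    apply MvPolynomial.funext
    intro u
    rw [map_zero]
    exact h u v
  have h2 := congrArg (coeff m) h1
  rw [coeff_map, coeff_zero] at h2
  rw [h2, map_zero]

lemma bval_eq {n : ℕ} (F : BPoly n) (u v : Fin (n+1) → ℂ) :
    bval F u v = eval v (eval (fun i => C (u i)) F) := by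
  have h : (eval u).comp (MvPolynomial.map (eval v)) =
      (eval v).comp (eval (fun i => (C (u i) : MvPolynomial (Fin (n+1)) ℂ))) := by
    apply ringHom_ext
    · intro r
      simp
    · intro i
      simp
  exact DFunLike.congr_fun h F

/-- the linear form with coefficients `A` -/
noncomputable def lin {n : ℕ} (A : Fin (n+1) → MvPolynomial (Fin (n+1)) ℂ) : BPoly n :=
  ∑ i, C (A i) * X i

lemma bval_lin {n : ℕ} (A : Fin (n+1) → MvPolynomial (Fin (n+1)) ℂ) (u v : Fin (n+1) → ℂ) :
    bval (lin A) u v = ∑ i, eval v (A i) * u i := by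
  simp [bval, lin]

lemma coeff_lin {n : ℕ} (A : Fin (n+1) → MvPolynomial (Fin (n+1)) ℂ) (j : Fin (n+1)) :
    coeff (Finsupp.single j 1) (lin A) = A j := by
  classical
  unfold lin
  rw [coeff_sum, Finset.sum_eq_single j]
  · rw [coeff_C_mul, coeff_X, if_pos rfl, mul_one]
  · intro i _ hij
    rw [coeff_C_mul, coeff_X, if_neg, mul_zero]
    intro h
    exact hij (Finsupp.single_left_injective one_ne_zero h)
  · intro h
    exact absurd (Finset.mem_univ j) h

lemma lin_hom {n : ℕ} (A : Fin (n+1) → MvPolynomial (Fin (n+1)) ℂ) : (lin A).IsHomogeneous 1 := by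
  apply IsHomogeneous.sum
  intro i _
  exact (isHomogeneous_X _ i).C_mul (A i)

lemma lin_ne_zero {n : ℕ} {A : Fin (n+1) → MvPolynomial (Fin (n+1)) ℂ} {j : Fin (n+1)}
    (hj : A j ≠ 0) : lin A ≠ 0 := by
  intro h
  apply hj
  rw [← coeff_lin A j, h, coeff_zero]

/-- primitive linear forms are prime -/
theorem lin_prime {n : ℕ} (A : Fin (n+1) → MvPolynomial (Fin (n+1)) ℂ) (j : Fin (n+1))
    (hj : A j ≠ 0) (hcop : ∀ q, (∀ i, q ∣ A i) → IsUnit q) : Prime (lin A) := by
  apply Irreducible.prime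
  have hne := lin_ne_zero hj
  have hdeg : (lin A).totalDegree = 1 := (lin_hom A).totalDegree hne
  have aux : ∀ U V : BPoly n, lin A = U * V → U.totalDegree = 0 → IsUnit U := by
    intro U V h hU
    rw [totalDegree_eq_zero_iff_eq_C] at hU
    rw [hU]
    apply IsUnit.map
    apply hcop
    intro i
    have h1 : C (coeff 0 U) ∣ lin A := by
      rw [← hU]
      exact ⟨V, h⟩
    rw [C_dvd_iff_dvd_coeff] at h1
    have h2 := h1 (Finsupp.single i 1)
    rwa [coeff_lin] at h2
  constructor
  · intro hu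
    obtain ⟨V, hV⟩ := hu.exists_right_inv
    have hV0 : V ≠ 0 := by
      rintro rfl
      simp at hV
    have h1 : (lin A * V).totalDegree = (lin A).totalDegree + V.totalDegree :=
      totalDegree_mul_of_isDomain hne hV0
    rw [hV, totalDegree_one, hdeg] at h1
    omega
  · intro U V h
    have hU0 : U ≠ 0 := by
      rintro rfl
      rw [zero_mul] at h
      exact hne h
    have hV0 : V ≠ 0 := by
      rintro rfl
      rw [mul_zero] at h
      exact hne h
    have h1 : (U * V).totalDegree = U.totalDegree + V.totalDegree :=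
      totalDegree_mul_of_isDomain hU0 hV0
    rw [← h, hdeg] at h1
    rcases Nat.eq_zero_or_pos U.totalDegree with h2 | h2
    · exact Or.inl (aux U V h h2)
    · exact Or.inr (aux V U (by rw [h, mul_comm]) (by omega))

lemma eval_C_hom {n : ℕ} (G : BPoly n) (e : ℕ) (hG : ∀ m, (coeff m G).IsHomogeneous e)
    (u : Fin (n+1) → ℂ) : (eval (fun i => (C (u i) : MvPolynomial (Fin (n+1)) ℂ)) G).IsHomogeneous e := by
  rw [eval_eq]
  apply IsHomogeneous.sum
  intro m _
  have h1 : (∏ i ∈ m.support, (C (u i) : MvPolynomial (Fin (n+1)) ℂ) ^ m i) =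
      C (∏ i ∈ m.support, u i ^ m i) := by
    rw [map_prod]
    exact Finset.prod_congr rfl fun i _ => by rw [C_pow]
  rw [h1, mul_comm]
  exact (hG m).C_mul _

lemma lin_coeff_hom {n : ℕ} (A : Fin (n+1) → MvPolynomial (Fin (n+1)) ℂ) (δ : ℕ)
    (hA : ∀ i, (A i).IsHomogeneous δ) (m : Fin (n+1) →₀ ℕ) : (coeff m (lin A)).IsHomogeneous δ := by
  classical
  unfold lin
  rw [coeff_sum]
  apply IsHomogeneous.sum
  intro i _
  rw [coeff_C_mul, coeff_X]
  split_ifs
  · rw [mul_one]
    exact hA i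
  · rw [mul_zero]
    exact isHomogeneous_zero _ _ _

/-- degrees of divisors in the second set of variables -/
theorem deg_le {n : ℕ} (A : Fin (n+1) → MvPolynomial (Fin (n+1)) ℂ) (δ e : ℕ)
    (hA : ∀ i, (A i).IsHomogeneous δ) (G : BPoly n) (hG0 : G ≠ 0)
    (hG : ∀ m, (coeff m G).IsHomogeneous e) (h : lin A ∣ G) : δ ≤ e := by
  obtain ⟨R, hR⟩ := h
  have h1 : ∃ u : Fin (n+1) → ℂ, eval (fun i => (C (u i) : MvPolynomial (Fin (n+1)) ℂ)) G ≠ 0 := by
    by_contra hcon
    push Not at hcon
    apply hG0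
    apply bval_ext
    intro u v
    rw [bval_eq, hcon u, map_zero]
  obtain ⟨u, hu⟩ := h1
  have h2 := eval_C_hom G e hG u
  have h3 := eval_C_hom (lin A) δ (lin_coeff_hom A δ hA) u
  rw [hR, map_mul] at hu
  have h4 : (eval (fun i => (C (u i) : MvPolynomial (Fin (n+1)) ℂ)) G).totalDegree =
      (eval (fun i => (C (u i) : MvPolynomial (Fin (n+1)) ℂ)) (lin A)).totalDegree +
      (eval (fun i => (C (u i) : MvPolynomial (Fin (n+1)) ℂ)) R).totalDegree := by
    rw [hR, map_mul, totalDegree_mul_of_isDomain (left_ne_zero_of_mul hu) (right_ne_zero_of_mul hu)]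
  rw [h3.totalDegree (left_ne_zero_of_mul hu), h2.totalDegree (by rw [hR, map_mul]; exact hu)] at h4
  omega

end Pool.Agent.R855.Grid
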